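import Pool.Agent.W990.EB.Stm

/-!
The quadratic form is small on slowly decreasing sequences (in fact at most `K`).
-/

set_option autoImplicit false
open Finset

namespace Pool.Agent.W74.EB

open Pool.Agent.W990.EB

/-- A unimodal function with values in `[0, 1]`. -/
structure Uni (g : ℤ → ℝ) (M : ℕ) : Prop where
  nonneg : ∀ x, 0 ≤ g x
  le_one : ∀ x, g x ≤ 1
  neg : ∀ x, x < 0 → g x = 0
  big : ∀ x, (M : ℤ) < x → g x = 0
  anti : ∀ x y, 0 ≤ x → x ≤ y → g y ≤ g x

lemma uni_summable {g : ℤ → ℝ} {M : ℕ} (h : Uni g M) : Summable g := by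
  refine summable_of_ne_finset_zero (s := Finset.Icc 0 (M : ℤ)) ?_
  intro x hx
  rw [Finset.mem_Icc, not_and_or] at hx
  rcases hx with hx | hx
  · exact h.neg x (by omega)
  · exact h.big x (by omega)

lemma shift_summable {g : ℤ → ℝ} {M : ℕ} (h : Uni g M) (i : ℤ) :
    Summable (fun x => g (x + i)) :=
  (Equiv.addRight i).summable_iff.2 (uni_summable h)

lemma shift_tsum {g : ℤ → ℝ} (i : ℤ) : ∑' x : ℤ, g (x + i) = ∑' x, g x :=
  (Equiv.addRight i).tsum_eq g

lemma ptw {g : ℤ → ℝ} {M : ℕ} (h : Uni g M) (i j : ℤ) (hij : i ≤ j) (x : ℤ) :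
    (g (x + i) - g (x + j)) ^ 2 ≤
      (g (x + i) - g (x + j)) + 2 * (if x ∈ Finset.Ico (-j) (-i) then (1 : ℝ) else 0) := by
  have a0 := h.nonneg (x + i)
  have b0 := h.nonneg (x + j)
  have a1 := h.le_one (x + i)
  have b1 := h.le_one (x + j)
  by_cases hx : 0 ≤ x + i
  · have hab := h.anti (x + i) (x + j) hx (by omega)
    have h0 : 0 ≤ (if x ∈ Finset.Ico (-j) (-i) then (1 : ℝ) else 0) := by split_ifs <;> norm_num
    nlinarith
  · rw [h.neg (x + i) (by omega)]
    by_cases hy : 0 ≤ x + j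
    · rw [if_pos (Finset.mem_Ico.2 ⟨by omega, by omega⟩)]
      nlinarith
    · rw [h.neg (x + j) (by omega)]
      have h0 : 0 ≤ (if x ∈ Finset.Ico (-j) (-i) then (1 : ℝ) else 0) := by
        split_ifs <;> norm_num
      linarith

lemma var {g : ℤ → ℝ} {M : ℕ} (h : Uni g M) (i j : ℤ) (hij : i ≤ j) :
    ∑' x : ℤ, (g (x + i) - g (x + j)) ^ 2 ≤ 2 * ((j - i : ℤ) : ℝ) := by
  have s1 : Summable (fun x : ℤ => g (x + i) - g (x + j)) :=
    (shift_summable h i).sub (shift_summable h j)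
  have hs : HasSum (fun x : ℤ => if x ∈ Finset.Ico (-j) (-i) then (1 : ℝ) else 0)
      (((j - i : ℤ) : ℝ)) := by
    have e : ∑ x ∈ Finset.Ico (-j) (-i), (if x ∈ Finset.Ico (-j) (-i) then (1 : ℝ) else 0)
        = ((j - i : ℤ) : ℝ) := by
      rw [Finset.sum_ite_mem, Finset.inter_self, Finset.sum_const, Int.card_Ico, nsmul_eq_mul,
        mul_one]
      have : ((-i - -j).toNat : ℤ) = j - i := by
        rw [Int.toNat_of_nonneg (by omega)]; ring
      exact_mod_cast this
    rw [← e]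
    exact hasSum_sum_of_ne_finset_zero (fun x hx => if_neg hx)
  have s2 : Summable (fun x : ℤ => (g (x + i) - g (x + j)) +
      2 * (if x ∈ Finset.Ico (-j) (-i) then (1 : ℝ) else 0)) := s1.add (hs.summable.mul_left 2)
  have s3 : Summable (fun x : ℤ => (g (x + i) - g (x + j)) ^ 2) :=
    Summable.of_nonneg_of_le (fun x => sq_nonneg _) (ptw h i j hij) s2
  refine (s3.tsum_le_tsum (ptw h i j hij) s2).trans ?_
  rw [s1.tsum_add (hs.summable.mul_left 2), (shift_summable h i).tsum_sub (shift_summable h j),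
    shift_tsum, shift_tsum, sub_self, zero_add, tsum_mul_left, hs.tsum_eq]

lemma var' {g : ℤ → ℝ} {M : ℕ} (h : Uni g M) (K i j : ℕ) (hi : i < K) (hj : j < K) :
    ∑' x : ℤ, (g (x + i) - g (x + j)) ^ 2 ≤ 2 * (K : ℝ) := by
  rcases le_total i j with hij | hij
  · refine (var h i j (by exact_mod_cast hij)).trans ?_
    have : ((j : ℤ) - i) ≤ K := by omega
    have : (((j : ℤ) - i : ℤ) : ℝ) ≤ K := by exact_mod_cast this
    linarith
  · have e : ∀ x : ℤ, (g (x + i) - g (x + j)) ^ 2 = (g (x + j) - g (x + i)) ^ 2 :=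
      fun x => by ring
    rw [tsum_congr e]
    refine (var h j i (by exact_mod_cast hij)).trans ?_
    have : ((i : ℤ) - j) ≤ K := by omega
    have : (((i : ℤ) - j : ℤ) : ℝ) ≤ K := by exact_mod_cast this
    linarith

lemma fib_nat (M : ℕ) (t : ℝ) (k : ℕ) :
    fib (range (M + 1)) (fun n : ℕ => (n : ℤ)) (fun n : ℕ => Real.exp (-(t * n))) (k : ℤ) =
      if k ≤ M then Real.exp (-(t * k)) else 0 := by
  unfold fib
  have e : ∀ n : ℕ, (if (n : ℤ) = (k : ℤ) then Real.exp (-(t * n)) else 0) =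
      if n = k then Real.exp (-(t * n)) else 0 := by
    intro n
    by_cases h : n = k
    · rw [if_pos h, if_pos (by rw [h])]
    · rw [if_neg h, if_neg (by exact_mod_cast h)]
  simp only [e]
  rw [Finset.sum_ite_eq']
  by_cases h : k ≤ M
  · rw [if_pos h, if_pos (by rw [Finset.mem_range]; omega)]
  · rw [if_neg h, if_neg (by rw [Finset.mem_range]; omega)]

lemma fib_neg (M : ℕ) (t : ℝ) (x : ℤ) (hx : x < 0) :
    fib (range (M + 1)) (fun n : ℕ => (n : ℤ)) (fun n : ℕ => Real.exp (-(t * n))) x = 0 := by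
  unfold fib
  refine Finset.sum_eq_zero fun n _ => if_neg ?_
  change ¬ ((n : ℤ) = x)
  omega

lemma uni (M : ℕ) (t : ℝ) (ht : 0 < t) :
    Uni (fib (range (M + 1)) (fun n : ℕ => (n : ℤ)) (fun n : ℕ => Real.exp (-(t * n)))) M where
  nonneg x := by
    unfold fib
    refine Finset.sum_nonneg fun n _ => ?_
    split_ifs
    · positivity
    · exact le_rfl
  le_one x := by
    by_cases hx : x < 0
    · rw [fib_neg M t x hx]; norm_num
    · obtain ⟨k, rfl⟩ := Int.eq_ofNat_of_zero_le (not_lt.1 hx)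
      rw [fib_nat]
      split_ifs
      · rw [Real.exp_le_one_iff]
        have : 0 ≤ t * k := by positivity
        linarith
      · norm_num
  neg x hx := fib_neg M t x hx
  big x hx := by
    obtain ⟨k, rfl⟩ := Int.eq_ofNat_of_zero_le (show 0 ≤ x by omega)
    rw [fib_nat, if_neg (by omega)]
  anti x y hx hxy := by
    obtain ⟨k, rfl⟩ := Int.eq_ofNat_of_zero_le hx
    obtain ⟨l, rfl⟩ := Int.eq_ofNat_of_zero_le (hx.trans hxy)
    have hkl : k ≤ l := by exact_mod_cast hxy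
    rw [fib_nat, fib_nat]
    by_cases hl : l ≤ M
    · rw [if_pos hl, if_pos (hkl.trans hl)]
      apply Real.exp_le_exp.2
      have : (k : ℝ) ≤ l := by exact_mod_cast hkl
      nlinarith
    · rw [if_neg hl]
      split_ifs
      · positivity
      · exact le_rfl

theorem ve (h : S_V0) : S_VE := by
  intro K M t hK ht _
  rw [h ℕ K (range (M + 1)) (fun n : ℕ => (n : ℤ)) (fun n : ℕ => Real.exp (-(t * n))) hK]
  have hK1 : (1 : ℝ) ≤ K := by exact_mod_cast hK
  have h1 : ∑ i ∈ range K, ∑ j ∈ range K,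
      ∑' x : ℤ, (fib (range (M + 1)) (fun n : ℕ => (n : ℤ)) (fun n : ℕ => Real.exp (-(t * n)))
        (x + i) - fib (range (M + 1)) (fun n : ℕ => (n : ℤ)) (fun n : ℕ => Real.exp (-(t * n)))
        (x + j)) ^ 2 ≤ ∑ i ∈ range K, ∑ j ∈ range K, 2 * (K : ℝ) :=
    Finset.sum_le_sum fun i hi => Finset.sum_le_sum fun j hj =>
      var' (uni M t ht) K i j (Finset.mem_range.1 hi) (Finset.mem_range.1 hj)
  have h2 : ∑ i ∈ range K, ∑ j ∈ range K, 2 * (K : ℝ) = 2 * (K : ℝ) ^ 3 := by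
    simp only [Finset.sum_const, Finset.card_range, nsmul_eq_mul]
    ring
  rw [h2] at h1
  refine (mul_le_mul_of_nonneg_left h1 (by positivity)).trans ?_
  have e : 1 / (2 * (K : ℝ) ^ 2) * (2 * (K : ℝ) ^ 3) = K := by field_simp
  rw [e]
  nlinarith

end Pool.Agent.W74.EB
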